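import Pool.Agent.U435.AL.Main

/-!
# Hard Lefschetz for Chow groups and Chow-Kunneth decompositions
-/

set_option autoImplicit false

open CategoryTheory AlgebraicGeometry

universe u v w

namespace Pool.Agent.U435.AL

open Pool.Agent.H914 Pool.Agent.H914.VarClass Pool.Agent.H914.VarClass.Obj Pool.Agent.W492.BB
  Pool.Agent.W550.Corr Pool.Agent.TH133 Pool.Agent.Y107 Pool.Agent.Q73.LS

set_option linter.unusedSectionVars false

variable {k : Type u} [Field k] {𝒱 : VarClass k}

/-- `D^(n-2i) : CH^i(X) → CH^(n-i)(X)` is injective, `n = dim X` -/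
def CInj (C : TheoryData.{u, v, 0} 𝒱 ℚ) {X : 𝒱.Obj} (D : C.A X) (i : ℕ) : Prop :=
  ∀ x : C.A X, C.Deg i x → D ^ (X.dim - 2 * i) * x = 0 → x = 0

/-- `D^(n-2i) : CH^i(X) → CH^(n-i)(X)` is surjective, `n = dim X` -/
def CSurj (C : TheoryData.{u, v, 0} 𝒱 ℚ) {X : 𝒱.Obj} (D : C.A X) (i : ℕ) : Prop :=
  ∀ y : C.A X, C.Deg ((X.dim : ℤ) - i) y →
    ∃ x : C.A X, C.Deg i x ∧ D ^ (X.dim - 2 * i) * x = y

section weil

variable {C : TheoryData.{u, v, 0} 𝒱 ℚ} [hC : IsChowProj C] {K : Type w} [Field K]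
  {H : WeilTheoryData.{u, v, w} C K} [hH : IsWeilProj H] {X : 𝒱.Obj} {D : C.A X}
  {π : ℕ → C.A (X.prod X)}

include hC hH

/-- the second half of (B) -/
lemma B1 (hD : C.Deg 1 D) (hπ : IsCK H X π) (hM : MotivicLefschetz C (C.mulCorr D) π) (j : ℕ) :
    ckFil C π j (j + 1) = ⊥ := by
  rw [fil_iff hπ]
  intro t ht x hx hxt
  by_cases hj : X.dim < j
  · exact gr_top_zero (H := H) (by exact_mod_cast hj) hx
  refine lef_inj hM (t := t) (a := X.dim - t) (by omega) le_rfl hxt ?_
  exact gr_top_zero (H := H) (j := (j : ℤ) + (X.dim - t : ℕ)) (by omega) (mul_mem_deg hD _ hx)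

lemma B0_iff (hπ : IsCK H X π) (j : ℕ) : ckFil C π j 0 = C.gr X j ↔
    ∀ t, 2 * j < t → ∀ x : C.A X, C.Deg j x → C.act (π t) x = x → x = 0 := by
  constructor
  · intro h t ht x hx hxt
    have h1 : x ∈ ckFil C π j 0 := by rw [h]; exact hx
    rw [hπ.mem_ckFil] at h1
    rw [← hxt]
    exact h1.2 t (by omega)
  · intro h
    ext x
    rw [hπ.mem_ckFil]
    constructor
    · exact fun h1 => h1.1
    · intro hx
      exact ⟨hx, fun t ht => h t (by omega) _ (act_mem0 C (hπ.deg t) hx)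
        (by rw [act_act hπ, if_pos rfl])⟩

lemma B0_low (hD : C.Deg 1 D) (hπ : IsCK H X π) (hM : MotivicLefschetz C (C.mulCorr D) π) {m : ℕ}
    (hinj : ∀ i ≤ m, CInj C D i) : ∀ j ≤ m, ∀ t ≤ X.dim, 2 * j < t → ∀ x : C.A X, C.Deg j x →
      C.act (π t) x = x → x = 0 := by
  intro j
  induction j with
  | zero =>
    intro _ t _ h2 x hx hxt
    refine eq_zero_of_deg0 (H := H) (by exact_mod_cast hx) ?_
    rw [← hxt]
    exact cl_comp_zero hπ (j := ((0 : ℕ) : ℤ)) (by push_cast; omega) hx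
  | succ j ih =>
    intro hj t ht h2 x hx hxt
    have hw : C.Deg (((j + 1 : ℕ) : ℤ) + (X.dim - t + 1 : ℕ)) (D ^ (X.dim - t + 1) * x) :=
      mul_mem_deg hD _ hx
    have hw' : C.act (π (2 * X.dim - (t - 2))) (D ^ (X.dim - t + 1) * x) =
        D ^ (X.dim - t + 1) * x := by
      have e : 2 * X.dim - (t - 2) = t + 2 * (X.dim - t + 1) := by omega
      rw [e, hom_pow hM, hxt]
    obtain ⟨y, hy, hyt, hyw, -⟩ := lef_surj hπ hM (t := t - 2) (by omega) hw hw'
    have e2 : ((j + 1 : ℕ) : ℤ) + (X.dim - t + 1 : ℕ) - (X.dim - (t - 2) : ℕ) = (j : ℕ) := by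
      omega
    rw [e2] at hy
    have hyz : y = 0 := ih (by omega) (t - 2) (by omega) (by omega) y hy hyt
    rw [hyz, mul_zero] at hyw
    apply hinj (j + 1) hj x hx
    have e3 : X.dim - 2 * (j + 1) = (X.dim - 2 * (j + 1) - (X.dim - t + 1)) +
        (X.dim - t + 1) := by omega
    rw [e3, pow_add, mul_assoc, ← hyw, mul_zero]

/-- from the components `h^t`, `t ≤ n`, to all of them -/
lemma B0_ext (hπ : IsCK H X π) (hM : MotivicLefschetz C (C.mulCorr D) π) {m : ℕ}
    (h : ∀ j ≤ m, ∀ t ≤ X.dim, 2 * j < t → ∀ x : C.A X, C.Deg j x →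
      C.act (π t) x = x → x = 0) {j : ℕ} (hj : j ≤ m ∨ X.dim ≤ 2 * m + 1) {t : ℕ} (h2 : 2 * j < t)
    {x : C.A X} (hx : C.Deg j x) (hxt : C.act (π t) x = x) : x = 0 := by
  by_cases ht : t ≤ X.dim
  · exact h j (by omega) t ht h2 x hx hxt
  by_cases ht2 : t ≤ 2 * X.dim
  · have e : 2 * X.dim - (2 * X.dim - t) = t := by omega
    obtain ⟨y, hy, hyt, hyw, hy0⟩ := lef_surj hπ hM (t := 2 * X.dim - t) (by omega) hx
      (by rw [e]; exact hxt)
    have hyz : y = 0 := by
      by_cases hneg : j < X.dim - (2 * X.dim - t)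
      · exact deg_neg_zero (by omega) hy
      · have e2 : (j : ℤ) - (X.dim - (2 * X.dim - t) : ℕ) =
            ((j - (X.dim - (2 * X.dim - t)) : ℕ) : ℤ) := by omega
        rw [e2] at hy
        exact h _ (by omega) _ (by omega) (by omega) y hy hyt
    rw [← hyw, hyz, mul_zero]
  · rw [← hxt, hπ.out t (by omega), act_zero_left]

/-- injectivity and the first half of (B) -/
theorem cinj_iff (hD : C.Deg 1 D) (hπ : IsCK H X π) (hM : MotivicLefschetz C (C.mulCorr D) π)
    {m : ℕ} (hm : 2 * m ≤ X.dim) : (∀ i ≤ m, CInj C D i) ↔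
      ∀ j ≤ m, ckFil C π j 0 = C.gr X j := by
  constructor
  · intro h j hj
    rw [B0_iff hπ]
    intro t ht x hx hxt
    exact B0_ext hπ hM (B0_low hD hπ hM h) (Or.inl hj) ht hx hxt
  · intro h i hi x hx hz
    have h1 := (B0_iff hπ i).1 (h i hi)
    refine eq_zero_of_comps hπ fun t => ?_
    by_cases ht : 2 * i < t
    · exact h1 t ht _ (act_mem0 C (hπ.deg t) hx) (by rw [act_act hπ, if_pos rfl])
    · refine lef_inj hM (t := t) (a := X.dim - 2 * i) (by omega) (by omega)
        (by rw [act_act hπ, if_pos rfl]) ?_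
      rw [← hom_pow hM, hz]
      exact C.act_map_zero _

/-- (B) -/
theorem B_iff (hD : C.Deg 1 D) (hπ : IsCK H X π) (hM : MotivicLefschetz C (C.mulCorr D) π) :
    SatisfiesB C π ↔ ∀ i, 2 * i ≤ X.dim → CInj C D i := by
  have em : 2 * (X.dim / 2) ≤ X.dim := by omega
  constructor
  · intro h i hi
    exact (cinj_iff hD hπ hM hi).2 (fun j _ => (h j).1) i le_rfl
  · intro h j
    refine ⟨?_, B1 hD hπ hM j⟩
    rw [B0_iff hπ]
    intro t ht x hx hxt
    exact B0_ext hπ hM (m := X.dim / 2) (B0_low hD hπ hM fun i hi => h i (by omega))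
      (Or.inr (by omega)) ht hx hxt

/-! ### Surjectivity -/

lemma C_low (hD : C.Deg 1 D) (hπ : IsCK H X π)
    (hM : MotivicLefschetz C (C.mulCorr D) π) {m : ℕ}
    (hsurj : ∀ i ≤ m, CSurj C D i) : ∀ j, ∀ t ≤ X.dim, t < 2 * j →
      t ≤ j + m → ∀ x : C.A X, C.Deg j x → C.act (π t) x = x → x = 0 := by
  intro j
  induction j using Nat.strong_induction_on with
  | _ j ih =>
    intro t ht h2 hjm x hx hxt
    by_cases hjn : X.dim < j
    · exact gr_top_zero (H := H) (by exact_mod_cast hjn) hx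
    obtain ⟨i, hi⟩ : ∃ i, i = min m (min (j - 1) (X.dim - j)) := ⟨_, rfl⟩
    have him : i ≤ m := by omega
    have hij : i < j := by omega
    have hin : i + j ≤ X.dim := by omega
    have hti : t ≤ i + j := by omega
    obtain ⟨b, hb⟩ : ∃ b, b = X.dim - i - j := ⟨_, rfl⟩
    have hy : C.Deg ((X.dim : ℤ) - i) (D ^ b * x) := by
      have h := mul_mem_deg hD b hx
      have e : (j : ℤ) + b = (X.dim : ℤ) - i := by omega
      rwa [e] at h
    obtain ⟨z, hz, hzy⟩ := hsurj i him _ hy
    have hcomp : C.act (π (t + 2 * b)) (D ^ b * x) = D ^ b * x := by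
      rw [hom_pow hM, hxt]
    by_cases hlow : t < 2 * (j - i)
    · have h3 : C.act (π (t + 2 * b)) (D ^ (X.dim - 2 * i) * z) = 0 :=
        low_zero hπ hM (by omega) z
      rw [hzy, hcomp] at h3
      exact lef_inj hM ht (by omega) hxt h3
    · have hz' : D ^ (X.dim - 2 * i) * C.act (π (t - 2 * (j - i))) z = D ^ b * x := by
        rw [← hom_pow hM, hzy]
        have e : t - 2 * (j - i) + 2 * (X.dim - 2 * i) = t + 2 * b := by omega
        rw [e, hcomp]
      have hu : x - D ^ (j - i) * C.act (π (t - 2 * (j - i))) z = 0 := by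
        refine lef_inj hM ht (a := b) (by omega) ?_ ?_
        · have h5 : C.act (π t) (D ^ (j - i) * C.act (π (t - 2 * (j - i))) z) =
              D ^ (j - i) * C.act (π (t - 2 * (j - i))) z := by
            have e : t = t - 2 * (j - i) + 2 * (j - i) := by omega
            conv_lhs => rw [e]
            have e' : t - 2 * (j - i) + 2 * (j - i) - 2 * (j - i) = t - 2 * (j - i) := by omega
            rw [e', hom_pow hM, act_act hπ, if_pos rfl]
          have h6 : C.act (π t) (x - D ^ (j - i) * C.act (π (t - 2 * (j - i))) z) =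
              C.act (π t) x - C.act (π t) (D ^ (j - i) * C.act (π (t - 2 * (j - i))) z) :=
            map_sub (C.actL (π t)) _ _
          rw [h6, h5, hxt]
        · rw [mul_sub, ← mul_assoc, ← pow_add]
          have e : b + (j - i) = X.dim - 2 * i := by omega
          rw [e, hz', sub_self]
      have hw : C.act (π (t - 2 * (j - i))) z = 0 :=
        ih i hij (t - 2 * (j - i)) (by omega) (by omega) (by omega) _
          (act_mem0 C (hπ.deg _) hz) (by rw [act_act hπ, if_pos rfl])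
      rw [hw, mul_zero, sub_zero] at hu
      exact hu

lemma C_all (hD : C.Deg 1 D) (hπ : IsCK H X π)
    (hM : MotivicLefschetz C (C.mulCorr D) π) {m : ℕ}
    (hsurj : ∀ i ≤ m, CSurj C D i) {j t : ℕ} (h2 : t < 2 * j)
    (hjm : min t X.dim ≤ j + m) {x : C.A X} (hx : C.Deg j x) (hxt : C.act (π t) x = x) :
    x = 0 := by
  by_cases ht : t ≤ X.dim
  · exact C_low hD hπ hM hsurj j t ht h2 (by omega) x hx hxt
  by_cases ht2 : t ≤ 2 * X.dim
  · have e : 2 * X.dim - (2 * X.dim - t) = t := by omega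
    obtain ⟨y, hy, hyt, hyw, -⟩ := lef_surj hπ hM (t := 2 * X.dim - t) (by omega) hx
      (by rw [e]; exact hxt)
    have hyz : y = 0 := by
      by_cases hneg : j < X.dim - (2 * X.dim - t)
      · exact deg_neg_zero (by omega) hy
      · have e2 : (j : ℤ) - (X.dim - (2 * X.dim - t) : ℕ) =
            ((j - (X.dim - (2 * X.dim - t)) : ℕ) : ℤ) := by omega
        rw [e2] at hy
        exact C_low hD hπ hM hsurj _ _ (by omega) (by omega) (by omega) y hy hyt
    rw [← hyw, hyz, mul_zero]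
  · rw [← hxt, hπ.out t (by omega), act_zero_left]

lemma csurj_of (hD : C.Deg 1 D) (hπ : IsCK H X π) (hM : MotivicLefschetz C (C.mulCorr D) π)
    {m i : ℕ} (him : i ≤ m) (hi : 2 * i ≤ X.dim)
    (hF : ∀ j t : ℕ, t < 2 * j → t ≤ j + m → ∀ x : C.A X, C.Deg j x →
      C.act (π t) x = x → x = 0) : CSurj C D i := by
  intro y hy
  by_cases hi2 : 2 * i = X.dim
  · refine ⟨y, ?_, ?_⟩
    · have e : (X.dim : ℤ) - i = i := by omega
      rwa [e] at hy
    · have e : X.dim - 2 * i = 0 := by omega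
      rw [e, pow_zero, one_mul]
  have e1 : (X.dim : ℤ) - i = ((X.dim - i : ℕ) : ℤ) := by omega
  have key : ∀ t : ℕ, ∃ x : C.A X, C.Deg i x ∧ D ^ (X.dim - 2 * i) * x = C.act (π t) y := by
    intro t
    have hyt : C.Deg ((X.dim - i : ℕ) : ℤ) (C.act (π t) y) := by
      rw [← e1]
      exact act_mem0 C (hπ.deg t) hy
    have hytt : C.act (π t) (C.act (π t) y) = C.act (π t) y := by rw [act_act hπ, if_pos rfl]
    have triv : C.act (π t) y = 0 → ∃ x : C.A X, C.Deg i x ∧
        D ^ (X.dim - 2 * i) * x = C.act (π t) y := by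
      intro h
      refine ⟨0, Submodule.zero_mem _, ?_⟩
      rw [h, mul_zero]
    by_cases ht : t ≤ X.dim
    · exact triv (hF (X.dim - i) t (by omega) (by omega) _ hyt hytt)
    by_cases ht2 : t ≤ 2 * X.dim
    · have e : 2 * X.dim - (2 * X.dim - t) = t := by omega
      obtain ⟨z, hz, hzt, hzw, -⟩ := lef_surj hπ hM (t := 2 * X.dim - t) (by omega) hyt
        (by rw [e]; exact hytt)
      by_cases hs : 2 * X.dim - t ≤ 2 * i
      · obtain ⟨b, hb⟩ : ∃ b, b = X.dim - (2 * X.dim - t) - (X.dim - 2 * i) := ⟨_, rfl⟩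
        refine ⟨D ^ b * z, ?_, ?_⟩
        · have h := mul_mem_deg hD b hz
          have e2 : ((X.dim - i : ℕ) : ℤ) - (X.dim - (2 * X.dim - t) : ℕ) + b = i := by omega
          rwa [e2] at h
        · rw [← mul_assoc, ← pow_add]
          have e3 : X.dim - 2 * i + b = X.dim - (2 * X.dim - t) := by omega
          rw [e3, hzw]
      · have hzz : z = 0 := by
          have e2 : ((X.dim - i : ℕ) : ℤ) - (X.dim - (2 * X.dim - t) : ℕ) =
              ((2 * X.dim - t - i : ℕ) : ℤ) := by omega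
          rw [e2] at hz
          exact hF _ _ (by omega) (by omega) z hz hzt
        apply triv
        rw [← hzw, hzz, mul_zero]
    · apply triv
      rw [hπ.out t (by omega), act_zero_left]
  choose f hf using key
  refine ⟨∑ t ∈ Finset.range (2 * X.dim + 1), f t, ?_, ?_⟩
  · exact Submodule.sum_mem _ fun t _ => (hf t).1
  · rw [Finset.mul_sum, Finset.sum_congr rfl fun t _ => (hf t).2, sum_act hπ]

/-- surjectivity and the steps of the filtration -/
theorem csurj_iff (hD : C.Deg 1 D) (hπ : IsCK H X π) (hM : MotivicLefschetz C (C.mulCorr D) π)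
    {m : ℕ} (hm : 2 * m ≤ X.dim) :
    (∀ i ≤ m, CSurj C D i) ↔ ∀ j : ℕ, ckFil C π j (max 1 (j - m)) = ⊥ := by
  constructor
  · intro h j
    rw [fil_iff hπ]
    intro t ht x hx hxt
    exact C_all hD hπ hM h (by omega) (by omega) hx hxt
  · intro h i hi
    refine csurj_of hD hπ hM hi (by omega) fun j t h2 hj x hx hxt => ?_
    exact (fil_iff hπ j _).1 (h j) t (by omega) x hx hxt

/-- both -/
theorem cbij_iff (hD : C.Deg 1 D) (hπ : IsCK H X π) (hM : MotivicLefschetz C (C.mulCorr D) π) :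
    (∀ i, 2 * i ≤ X.dim → CInj C D i ∧ CSurj C D i) ↔
      ∀ (j : ℕ) (x : C.A X), C.Deg j x → C.act (π (2 * j)) x = x := by
  constructor
  · intro h j x hx
    have key : ∀ t, t ≠ 2 * j → C.act (π t) x = 0 := by
      intro t ht
      have hmem := act_mem0 C (hπ.deg t) hx
      have hid : C.act (π t) (C.act (π t) x) = C.act (π t) x := by rw [act_act hπ, if_pos rfl]
      by_cases ht2 : 2 * j < t
      · exact B0_ext hπ hM (m := X.dim / 2) (B0_low hD hπ hM fun i hi => (h i (by omega)).1)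
          (Or.inr (by omega)) ht2 hmem hid
      · by_cases hj : X.dim < j
        · exact gr_top_zero (H := H) (by exact_mod_cast hj) hmem
        exact C_all hD hπ hM (m := X.dim / 2) (fun i hi => (h i (by omega)).2) (by omega)
          (by omega) hmem hid
    have h4 : x - C.act (π (2 * j)) x = 0 := by
      refine eq_zero_of_comps hπ fun t => ?_
      have h5 : C.act (π t) (x - C.act (π (2 * j)) x) =
          C.act (π t) x - C.act (π t) (C.act (π (2 * j)) x) := map_sub (C.actL (π t)) _ _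
      rw [h5, act_act hπ]
      by_cases ht : t = 2 * j
      · rw [if_pos ht.symm, ht, sub_self]
      · rw [if_neg (Ne.symm ht), key t ht, sub_zero]
    exact (sub_eq_zero.1 h4).symm
  · intro h i hi
    have hz : ∀ j t : ℕ, t ≠ 2 * j → ∀ x : C.A X, C.Deg j x → C.act (π t) x = x → x = 0 := by
      intro j t ht x hx hxt
      rw [← h j x hx, ← hxt, act_act hπ, if_neg ht]
    constructor
    · refine (cinj_iff hD hπ hM hi).2 (fun j _ => ?_) i le_rfl
      rw [B0_iff hπ]
      exact fun t ht => hz j t (by omega)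
    · exact csurj_of hD hπ hM (m := i) le_rfl hi fun j t ht _ => hz j t (by omega)

end weil

end Pool.Agent.U435.AL
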