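import Pool.Agent.Q73.LS.Murre

/-!
# Hard Lefschetz for homologically trivial cycles and Chow-Kunneth decompositions
-/

set_option autoImplicit false

open CategoryTheory AlgebraicGeometry

universe u v w

namespace Pool.Agent.U435.AL

open Pool.Agent.H914 Pool.Agent.H914.VarClass Pool.Agent.H914.VarClass.Obj Pool.Agent.W492.BB
  Pool.Agent.W550.Corr Pool.Agent.TH133 Pool.Agent.Y107 Pool.Agent.Q73.LS

set_option linter.unusedSectionVars false

variable {k : Type u} [Field k] {𝒱 : VarClass k}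

/-- `D^(n+1-2i) : CH^i(X)^0 → CH^(n+1-i)(X)^0` is injective, `n = dim X` -/
def LInj {C : TheoryData.{u, v, 0} 𝒱 ℚ} {K : Type w} [Field K] (H : WeilTheoryData.{u, v, w} C K)
    {X : 𝒱.Obj} (D : C.A X) (i : ℕ) : Prop :=
  ∀ x : C.A X, C.Deg i x → H.cl x = 0 → D ^ (X.dim + 1 - 2 * i) * x = 0 → x = 0

/-- `D^(n+1-2i) : CH^i(X)^0 → CH^(n+1-i)(X)^0` is surjective, `n = dim X` -/
def LSurj {C : TheoryData.{u, v, 0} 𝒱 ℚ} {K : Type w} [Field K] (H : WeilTheoryData.{u, v, w} C K)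
    {X : 𝒱.Obj} (D : C.A X) (i : ℕ) : Prop :=
  ∀ y : C.A X, C.Deg ((X.dim : ℤ) + 1 - i) y → H.cl y = 0 →
    ∃ x : C.A X, C.Deg i x ∧ H.cl x = 0 ∧ D ^ (X.dim + 1 - 2 * i) * x = y

section chow

variable {C : TheoryData.{u, v, 0} 𝒱 ℚ} [hC : IsChowProj C] {X : 𝒱.Obj} {D : C.A X}
  {π : ℕ → C.A (X.prod X)}

include hC

lemma act_pow (D : C.A X) (a : ℕ) (x : C.A X) :
    C.act (corPow C (C.mulCorr D) a) x = D ^ a * x := by
  rw [mulCorr_pow, C.act_mulCorr]

lemma act_zero_left (x : C.A X) : C.act (0 : C.A (X.prod X)) x = 0 := C.act_zero x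

/-- `π_(t + 2 a) (D^a x) = D^a (π_t x)` -/
lemma hom_pow (hM : MotivicLefschetz C (C.mulCorr D) π) (t a : ℕ) (x : C.A X) :
    C.act (π (t + 2 * a)) (D ^ a * x) = D ^ a * C.act (π t) x := by
  have h := homog_pow (C := C) hM.homogeneous t a
  have h1 := congrArg (fun Γ => C.act Γ x) h
  simp only [C.act_comp, act_pow] at h1
  exact h1.symm

lemma mul_mem_deg (hD : C.Deg 1 D) (a : ℕ) {j : ℤ} {x : C.A X} (hx : C.Deg j x) :
    C.Deg (j + a) (D ^ a * x) := by
  induction a with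
  | zero => simpa using hx
  | succ a ih =>
    rw [pow_succ', mul_assoc]
    have h := C.mul_mem hD ih
    have e : (1 : ℤ) + (j + a) = j + ((a + 1 : ℕ) : ℤ) := by push_cast; ring
    rw [e] at h
    exact h

lemma lef_inj (hM : MotivicLefschetz C (C.mulCorr D) π) {t a : ℕ}
    (ht : t ≤ X.dim) (ha : a ≤ X.dim - t) {x : C.A X} (hx : C.act (π t) x = x)
    (h0 : D ^ a * x = 0) : x = 0 := by
  obtain ⟨g, -, h1, -⟩ := hM.iso t ht
  have h2 := congrArg (fun Γ => C.act Γ x) h1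
  simp only [C.act_comp, act_pow, hx] at h2
  rw [← h2]
  have e : X.dim - t = (X.dim - t - a) + a := by omega
  rw [e, pow_add, mul_assoc, h0, mul_zero]
  exact C.act_map_zero g

lemma deg_neg_zero {j : ℤ} (hj : j < 0) {x : C.A X} (hx : C.Deg j x) : x = 0 := by
  have h := C.gr_neg X j hj
  have h2 : x ∈ C.gr X j := hx
  rw [h, Submodule.mem_bot] at h2
  exact h2

end chow

section weil

variable {C : TheoryData.{u, v, 0} 𝒱 ℚ} [hC : IsChowProj C] {K : Type w} [Field K]
  {H : WeilTheoryData.{u, v, w} C K} [hH : IsWeilProj H] {X : 𝒱.Obj} {D : C.A X}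
  {π : ℕ → C.A (X.prod X)}

include hC hH

lemma act_act (hπ : IsCK H X π) (s t : ℕ) (x : C.A X) :
    C.act (π s) (C.act (π t) x) = if t = s then C.act (π t) x else 0 := by
  rw [← C.act_comp]
  split_ifs with h
  · rw [h, hπ.idem]
  · rw [hπ.orth t s h, act_zero_left]

lemma sum_act (hπ : IsCK H X π) (x : C.A X) :
    ∑ t ∈ Finset.range (2 * X.dim + 1), C.act (π t) x = x := by
  rw [← act_sum, hπ.sum, act_dg]

lemma eq_zero_of_comps (hπ : IsCK H X π) {x : C.A X} (h : ∀ t, C.act (π t) x = 0) : x = 0 := by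
  rw [← sum_act hπ x]
  exact Finset.sum_eq_zero fun t _ => h t

lemma low_zero (hπ : IsCK H X π) (hM : MotivicLefschetz C (C.mulCorr D) π) {r a : ℕ}
    (hr : r < 2 * a) (x : C.A X) : C.act (π r) (D ^ a * x) = 0 := by
  have h1 : D ^ a * x = ∑ t ∈ Finset.range (2 * X.dim + 1),
      C.act (π (t + 2 * a)) (D ^ a * x) := by
    rw [Finset.sum_congr rfl fun t _ => hom_pow hM t a x, ← Finset.mul_sum, sum_act hπ x]
  rw [h1, act_map_sum]
  refine Finset.sum_eq_zero fun t _ => ?_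
  rw [act_act hπ, if_neg (by omega)]

lemma cl_mul_zero {x : C.A X} (y : C.A X) (hx : H.cl x = 0) : H.cl (y * x) = 0 := by
  rw [map_mul, hx, mul_zero]

lemma lef_surj (hπ : IsCK H X π) (hM : MotivicLefschetz C (C.mulCorr D) π) {t : ℕ}
    (ht : t ≤ X.dim) {j : ℤ} {y : C.A X} (hy : C.Deg j y) (hy' : C.act (π (2 * X.dim - t)) y = y) :
    ∃ x : C.A X, C.Deg (j - (X.dim - t : ℕ)) x ∧ C.act (π t) x = x ∧ D ^ (X.dim - t) * x = y ∧
      (H.cl y = 0 → H.cl x = 0) := by
  obtain ⟨g, hg, -, h1⟩ := hM.iso t ht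
  have h2 := congrArg (fun Γ => C.act Γ y) h1
  simp only [C.act_comp, act_pow, hy'] at h2
  have e : t + 2 * (X.dim - t) = 2 * X.dim - t := by omega
  refine ⟨C.act (π t) (C.act g y), ?_, ?_, ?_, ?_⟩
  · apply act_mem0 C (hπ.deg t)
    have h3 : g ∈ C.gr (X.prod X) ((X.dim : ℤ) + -(X.dim - t : ℕ)) := by
      have e2 : (X.dim : ℤ) + -(X.dim - t : ℕ) = t := by omega
      rw [e2]; exact hg
    have h4 := act_mem' C h3 hy
    exact h4
  · rw [act_act hπ, if_pos rfl]
  · rw [← hom_pow hM, h2, e, hy']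
  · intro h0
    rw [cl_act H, cl_act H, h0]
    have e3 : H.act (H.cl g) 0 = 0 := H.act_map_zero _
    have e4 : H.act (H.cl (π t)) 0 = 0 := H.act_map_zero _
    rw [e3, e4]

lemma cl_comp_zero (hπ : IsCK H X π) {j : ℤ} {t : ℕ} (ht : (t : ℤ) ≠ 2 * j) {x : C.A X}
    (hx : C.Deg j x) : H.cl (C.act (π t) x) = 0 := by
  rw [cl_act H]
  exact hπ.act_ne t (2 * j) _ (Ne.symm ht) (H.cl_mem hx)

lemma cl_act_zero {Γ : C.A (X.prod X)} {x : C.A X} (hx : H.cl x = 0) : H.cl (C.act Γ x) = 0 := by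
  rw [cl_act H, hx]
  exact H.act_map_zero _

/-! ### Injectivity and (D) -/

lemma D_low (hD : C.Deg 1 D) (hπ : IsCK H X π) (hM : MotivicLefschetz C (C.mulCorr D) π) {m : ℕ}
    (hinj : ∀ i ≤ m, LInj H D i) : ∀ j ≤ m, ∀ t ≤ X.dim, 2 * j ≤ t → ∀ x : C.A X, C.Deg j x →
      C.act (π t) x = x → H.cl x = 0 → x = 0 := by
  intro j
  induction j with
  | zero =>
    intro _ t _ _ x hx _ h0
    exact eq_zero_of_deg0 (H := H) (by exact_mod_cast hx) h0
  | succ j ih =>
    intro hj t ht h2 x hx hxt h0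
    have hw : C.Deg (((j + 1 : ℕ) : ℤ) + (X.dim - t + 1 : ℕ)) (D ^ (X.dim - t + 1) * x) :=
      mul_mem_deg hD _ hx
    have hw' : C.act (π (2 * X.dim - (t - 2))) (D ^ (X.dim - t + 1) * x) =
        D ^ (X.dim - t + 1) * x := by
      have e : 2 * X.dim - (t - 2) = t + 2 * (X.dim - t + 1) := by omega
      rw [e, hom_pow hM, hxt]
    obtain ⟨y, hy, hyt, hyw, hy0⟩ := lef_surj hπ hM (t := t - 2) (by omega) hw hw'
    have hy0' := hy0 (cl_mul_zero _ h0)
    have e1 : X.dim - (t - 2) = (X.dim - t + 1) + 1 := by omega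
    have e2 : ((j + 1 : ℕ) : ℤ) + (X.dim - t + 1 : ℕ) - (X.dim - (t - 2) : ℕ) = (j : ℕ) := by
      omega
    rw [e2] at hy
    have hyz : y = 0 := ih (by omega) (t - 2) (by omega) (by omega) y hy hyt hy0'
    rw [hyz, mul_zero] at hyw
    apply hinj (j + 1) hj x hx h0
    have e3 : X.dim + 1 - 2 * (j + 1) = (X.dim + 1 - 2 * (j + 1) - (X.dim - t + 1)) +
        (X.dim - t + 1) := by omega
    rw [e3, pow_add, mul_assoc, ← hyw, mul_zero]

lemma D_all (hD : C.Deg 1 D) (hπ : IsCK H X π) (hM : MotivicLefschetz C (C.mulCorr D) π) {m : ℕ}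
    (hinj : ∀ i ≤ m, LInj H D i) {j : ℕ} (hj : j ≤ m) {t : ℕ} (h2 : 2 * j ≤ t) {x : C.A X}
    (hx : C.Deg j x) (hxt : C.act (π t) x = x) (h0 : H.cl x = 0) : x = 0 := by
  by_cases ht : t ≤ X.dim
  · exact D_low hD hπ hM hinj j hj t ht h2 x hx hxt h0
  by_cases ht2 : t ≤ 2 * X.dim
  · have e : 2 * X.dim - (2 * X.dim - t) = t := by omega
    obtain ⟨y, hy, hyt, hyw, hy0⟩ := lef_surj hπ hM (t := 2 * X.dim - t) (by omega) hx
      (by rw [e]; exact hxt)
    have hyz : y = 0 := by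
      by_cases hneg : j < X.dim - (2 * X.dim - t)
      · exact deg_neg_zero (by omega) hy
      · have e2 : (j : ℤ) - (X.dim - (2 * X.dim - t) : ℕ) =
            ((j - (X.dim - (2 * X.dim - t)) : ℕ) : ℤ) := by omega
        rw [e2] at hy
        exact D_low hD hπ hM hinj _ (by omega) _ (by omega) (by omega) y hy hyt (hy0 h0)
    rw [← hyw, hyz, mul_zero]
  · rw [← hxt, hπ.out t (by omega), act_zero_left]

/-- (D) in codimension `j` in terms of the components. -/
lemma D_iff (hπ : IsCK H X π) (j : ℕ) : (∀ x : C.A X, x ∈ ckFil C π j 1 ↔ C.Deg j x ∧ H.cl x = 0) ↔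
    ∀ t, 2 * j ≤ t → ∀ x : C.A X, C.Deg j x → C.act (π t) x = x → H.cl x = 0 → x = 0 := by
  constructor
  · intro h t ht x hx hxt h0
    have h1 := (h x).2 ⟨hx, h0⟩
    rw [hπ.mem_ckFil] at h1
    rw [← hxt]
    exact h1.2 t (by omega)
  · intro h x
    rw [hπ.mem_ckFil]
    constructor
    · rintro ⟨hx, h1⟩
      refine ⟨hx, ?_⟩
      rw [← sum_act hπ x, map_sum]
      refine Finset.sum_eq_zero fun t _ => ?_
      by_cases ht : 2 * j + 1 - 1 ≤ t
      · rw [h1 t ht, map_zero]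
      · exact cl_comp_zero hπ (by omega) hx
    · rintro ⟨hx, h0⟩
      refine ⟨hx, fun t ht => ?_⟩
      exact h t (by omega) _ (act_mem0 C (hπ.deg t) hx) (by rw [act_act hπ, if_pos rfl])
        (cl_act_zero h0)

/-- The steps of the filtration in terms of the components. -/
lemma fil_iff (hπ : IsCK H X π) (j n : ℕ) : ckFil C π j n = ⊥ ↔
    ∀ t, t < 2 * j + 1 - n → ∀ x : C.A X, C.Deg j x → C.act (π t) x = x → x = 0 := by
  constructor
  · intro h t ht x hx hxt
    have h1 : x ∈ ckFil C π j n := by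
      rw [hπ.mem_ckFil]
      refine ⟨hx, fun s hs => ?_⟩
      rw [← hxt, act_act hπ, if_neg (by omega)]
    rw [h, Submodule.mem_bot] at h1
    exact h1
  · intro h
    rw [eq_bot_iff]
    intro x hx
    rw [hπ.mem_ckFil] at hx
    rw [Submodule.mem_bot]
    refine eq_zero_of_comps hπ fun t => ?_
    by_cases ht : t < 2 * j + 1 - n
    · exact h t ht _ (act_mem0 C (hπ.deg t) hx.1) (by rw [act_act hπ, if_pos rfl])
    · exact hx.2 t (by omega)

/-- the injectivity half -/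
theorem inj_iff (hD : C.Deg 1 D) (hπ : IsCK H X π) (hM : MotivicLefschetz C (C.mulCorr D) π)
    {m : ℕ} (hm : 2 * m ≤ X.dim + 1) : (∀ i ≤ m, LInj H D i) ↔
      ∀ j ≤ m, ∀ x : C.A X, x ∈ ckFil C π j 1 ↔ C.Deg j x ∧ H.cl x = 0 := by
  constructor
  · intro h j hj
    rw [D_iff hπ]
    intro t ht x hx hxt h0
    exact D_all hD hπ hM h hj ht hx hxt h0
  · intro h i hi x hx h0 hz
    have h1 := (D_iff hπ i).1 (h i hi)
    refine eq_zero_of_comps hπ fun t => ?_
    by_cases ht : 2 * i ≤ t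
    · exact h1 t ht _ (act_mem0 C (hπ.deg t) hx) (by rw [act_act hπ, if_pos rfl])
        (cl_act_zero h0)
    · refine lef_inj hM (t := t) (a := X.dim + 1 - 2 * i) (by omega) (by omega)
        (by rw [act_act hπ, if_pos rfl]) ?_
      rw [← hom_pow hM, hz]
      exact C.act_map_zero _

/-- (D) in codimensions at most `(n + 1) / 2` implies (D). -/
lemma D_of_low (hπ : IsCK H X π) (hM : MotivicLefschetz C (C.mulCorr D) π) {m : ℕ}
    (hm : X.dim ≤ 2 * m)
    (h : ∀ j ≤ m, ∀ x : C.A X, x ∈ ckFil C π j 1 ↔ C.Deg j x ∧ H.cl x = 0) : SatisfiesD H π := by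
  intro j
  rw [D_iff hπ]
  intro t ht x hx hxt h0
  by_cases ht1 : t ≤ X.dim
  · exact (D_iff hπ j).1 (h j (by omega)) t ht x hx hxt h0
  by_cases ht2 : t ≤ 2 * X.dim
  · have e : 2 * X.dim - (2 * X.dim - t) = t := by omega
    obtain ⟨y, hy, hyt, hyw, hy0⟩ := lef_surj hπ hM (t := 2 * X.dim - t) (by omega) hx
      (by rw [e]; exact hxt)
    have hyz : y = 0 := by
      by_cases hneg : j < X.dim - (2 * X.dim - t)
      · exact deg_neg_zero (by omega) hy
      · have e2 : (j : ℤ) - (X.dim - (2 * X.dim - t) : ℕ) =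
            ((j - (X.dim - (2 * X.dim - t)) : ℕ) : ℤ) := by omega
        rw [e2] at hy
        exact (D_iff hπ _).1 (h (j - (X.dim - (2 * X.dim - t))) (by omega))
          (2 * X.dim - t) (by omega) y hy hyt (hy0 h0)
    rw [← hyw, hyz, mul_zero]
  · rw [← hxt, hπ.out t (by omega), act_zero_left]

/-! ### Surjectivity and the steps of the filtration -/

lemma gr_top_zero {j : ℤ} (hj : (X.dim : ℤ) < j) {x : C.A X} (hx : C.Deg j x) : x = 0 :=
  hC.gr_top X j x hx hj

lemma S_low (hP : PicardFaithful H) (hD : C.Deg 1 D) (hπ : IsCK H X π)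
    (hM : MotivicLefschetz C (C.mulCorr D) π) {m : ℕ} (hm1 : 1 ≤ m)
    (hsurj : ∀ i, 1 ≤ i → i ≤ m → LSurj H D i) : ∀ j, 1 ≤ j → ∀ t ≤ X.dim, t + 2 ≤ 2 * j →
      t + 1 ≤ j + m → ∀ x : C.A X, C.Deg j x → C.act (π t) x = x → x = 0 := by
  intro j
  induction j using Nat.strong_induction_on with
  | _ j ih =>
    intro hj t ht h2 hjm x hx hxt
    have h0 : H.cl x = 0 := by
      rw [← hxt]
      exact cl_comp_zero hπ (by omega) hx
    by_cases hj1 : j = 1
    · subst hj1
      have ht0 : t = 0 := by omega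
      subst ht0
      rw [← hxt]
      exact hP X (π 0) (hπ.deg 0) (fun a ha => hπ.act_ne 0 1 a (by norm_num) ha) x
        (by exact_mod_cast hx) h0
    by_cases hjn : X.dim < j
    · exact gr_top_zero (H := H) (by exact_mod_cast hjn) hx
    obtain ⟨i, hi⟩ : ∃ i, i = min m (min (j - 1) (X.dim + 1 - j)) := ⟨_, rfl⟩
    have hi1 : 1 ≤ i := by omega
    have him : i ≤ m := by omega
    have hij : i < j := by omega
    have hin : i + j ≤ X.dim + 1 := by omega
    have hti : t + 1 ≤ i + j := by omega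
    obtain ⟨b, hb⟩ : ∃ b, b = X.dim + 1 - i - j := ⟨_, rfl⟩
    have hy : C.Deg ((X.dim : ℤ) + 1 - i) (D ^ b * x) := by
      have h := mul_mem_deg hD b hx
      have e : (j : ℤ) + b = (X.dim : ℤ) + 1 - i := by omega
      rwa [e] at h
    obtain ⟨z, hz, hz0, hzy⟩ := hsurj i hi1 him _ hy (cl_mul_zero _ h0)
    have hcomp : C.act (π (t + 2 * b)) (D ^ b * x) = D ^ b * x := by
      rw [hom_pow hM, hxt]
    by_cases hlow : t < 2 * (j - i)
    · have h3 : C.act (π (t + 2 * b)) (D ^ (X.dim + 1 - 2 * i) * z) = 0 :=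
        low_zero hπ hM (by omega) z
      rw [hzy, hcomp] at h3
      exact lef_inj hM ht (by omega) hxt h3
    · have hz' : D ^ (X.dim + 1 - 2 * i) * C.act (π (t - 2 * (j - i))) z = D ^ b * x := by
        rw [← hom_pow hM, hzy]
        have e : t - 2 * (j - i) + 2 * (X.dim + 1 - 2 * i) = t + 2 * b := by omega
        rw [e, hcomp]
      have hu : x - D ^ (j - i) * C.act (π (t - 2 * (j - i))) z = 0 := by
        refine lef_inj hM ht (a := b) (by omega) ?_ ?_
        · have h5 : C.act (π t) (D ^ (j - i) * C.act (π (t - 2 * (j - i))) z) =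
              D ^ (j - i) * C.act (π (t - 2 * (j - i))) z := by
            have e : t = t - 2 * (j - i) + 2 * (j - i) := by omega
            conv_lhs => rw [e]
            have e' : t - 2 * (j - i) + 2 * (j - i) - 2 * (j - i) = t - 2 * (j - i) := by omega
            rw [e', hom_pow hM, act_act hπ, if_pos rfl]
          have h6 : C.act (π t) (x - D ^ (j - i) * C.act (π (t - 2 * (j - i))) z) =
              C.act (π t) x - C.act (π t) (D ^ (j - i) * C.act (π (t - 2 * (j - i))) z) :=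
            map_sub (C.actL (π t)) _ _
          rw [h6, h5, hxt]
        · rw [mul_sub, ← mul_assoc, ← pow_add]
          have e : b + (j - i) = X.dim + 1 - 2 * i := by omega
          rw [e, hz', sub_self]
      have hw : C.act (π (t - 2 * (j - i))) z = 0 :=
        ih i hij hi1 (t - 2 * (j - i)) (by omega) (by omega) (by omega) _
          (act_mem0 C (hπ.deg _) hz) (by rw [act_act hπ, if_pos rfl])
      rw [hw, mul_zero, sub_zero] at hu
      exact hu

lemma S_all (hP : PicardFaithful H) (hD : C.Deg 1 D) (hπ : IsCK H X π)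
    (hM : MotivicLefschetz C (C.mulCorr D) π) {m : ℕ} (hm1 : 1 ≤ m)
    (hsurj : ∀ i, 1 ≤ i → i ≤ m → LSurj H D i) {j t : ℕ} (h2 : t + 2 ≤ 2 * j)
    (hjm : min t X.dim + 1 ≤ j + m) {x : C.A X} (hx : C.Deg j x) (hxt : C.act (π t) x = x) :
    x = 0 := by
  by_cases ht : t ≤ X.dim
  · exact S_low hP hD hπ hM hm1 hsurj j (by omega) t ht h2 (by omega) x hx hxt
  by_cases ht2 : t ≤ 2 * X.dim
  · have e : 2 * X.dim - (2 * X.dim - t) = t := by omega
    obtain ⟨y, hy, hyt, hyw, -⟩ := lef_surj hπ hM (t := 2 * X.dim - t) (by omega) hx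
      (by rw [e]; exact hxt)
    have hyz : y = 0 := by
      by_cases hneg : j < X.dim - (2 * X.dim - t)
      · exact deg_neg_zero (by omega) hy
      · have e2 : (j : ℤ) - (X.dim - (2 * X.dim - t) : ℕ) =
            ((j - (X.dim - (2 * X.dim - t)) : ℕ) : ℤ) := by omega
        rw [e2] at hy
        exact S_low hP hD hπ hM hm1 hsurj _ (by omega) _ (by omega) (by omega) (by omega) y hy hyt
    rw [← hyw, hyz, mul_zero]
  · rw [← hxt, hπ.out t (by omega), act_zero_left]

lemma surj_of (hD : C.Deg 1 D) (hπ : IsCK H X π) (hM : MotivicLefschetz C (C.mulCorr D) π)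
    {m i : ℕ} (him : i ≤ m) (hi : 2 * i ≤ X.dim + 1)
    (hF : ∀ j t : ℕ, t + 2 ≤ 2 * j → t + 1 ≤ j + m → ∀ x : C.A X, C.Deg j x →
      C.act (π t) x = x → x = 0) : LSurj H D i := by
  intro y hy h0
  by_cases hi2 : 2 * i = X.dim + 1
  · refine ⟨y, ?_, h0, ?_⟩
    · have e : (X.dim : ℤ) + 1 - i = i := by omega
      rwa [e] at hy
    · have e : X.dim + 1 - 2 * i = 0 := by omega
      rw [e, pow_zero, one_mul]
  have e1 : (X.dim : ℤ) + 1 - i = ((X.dim + 1 - i : ℕ) : ℤ) := by omega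
  have key : ∀ t : ℕ, ∃ x : C.A X, C.Deg i x ∧ H.cl x = 0 ∧
      D ^ (X.dim + 1 - 2 * i) * x = C.act (π t) y := by
    intro t
    have hyt : C.Deg ((X.dim + 1 - i : ℕ) : ℤ) (C.act (π t) y) := by
      rw [← e1]
      exact act_mem0 C (hπ.deg t) hy
    have hytt : C.act (π t) (C.act (π t) y) = C.act (π t) y := by rw [act_act hπ, if_pos rfl]
    have triv : C.act (π t) y = 0 → ∃ x : C.A X, C.Deg i x ∧ H.cl x = 0 ∧
        D ^ (X.dim + 1 - 2 * i) * x = C.act (π t) y := by
      intro h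
      refine ⟨0, Submodule.zero_mem _, map_zero _, ?_⟩
      rw [h, mul_zero]
    by_cases ht : t ≤ X.dim
    · exact triv (hF (X.dim + 1 - i) t (by omega) (by omega) _ hyt hytt)
    by_cases ht2 : t ≤ 2 * X.dim
    · have e : 2 * X.dim - (2 * X.dim - t) = t := by omega
      obtain ⟨z, hz, hzt, hzw, hz0⟩ := lef_surj hπ hM (t := 2 * X.dim - t) (by omega) hyt
        (by rw [e]; exact hytt)
      have hz0' := hz0 (cl_act_zero h0)
      by_cases hs : 2 * X.dim - t + 1 ≤ 2 * i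
      · obtain ⟨b, hb⟩ : ∃ b, b = X.dim - (2 * X.dim - t) - (X.dim + 1 - 2 * i) := ⟨_, rfl⟩
        refine ⟨D ^ b * z, ?_, cl_mul_zero _ hz0', ?_⟩
        · have h := mul_mem_deg hD b hz
          have e2 : ((X.dim + 1 - i : ℕ) : ℤ) - (X.dim - (2 * X.dim - t) : ℕ) + b = i := by omega
          rwa [e2] at h
        · rw [← mul_assoc, ← pow_add]
          have e3 : X.dim + 1 - 2 * i + b = X.dim - (2 * X.dim - t) := by omega
          rw [e3, hzw]
      · have hzz : z = 0 := by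
          have e2 : ((X.dim + 1 - i : ℕ) : ℤ) - (X.dim - (2 * X.dim - t) : ℕ) =
              ((2 * X.dim - t + 1 - i : ℕ) : ℤ) := by omega
          rw [e2] at hz
          exact hF _ _ (by omega) (by omega) z hz hzt
        apply triv
        rw [← hzw, hzz, mul_zero]
    · apply triv
      rw [hπ.out t (by omega), act_zero_left]
  choose f hf using key
  refine ⟨∑ t ∈ Finset.range (2 * X.dim + 1), f t, ?_, ?_, ?_⟩
  · exact Submodule.sum_mem _ fun t _ => (hf t).1
  · rw [map_sum]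
    exact Finset.sum_eq_zero fun t _ => (hf t).2.1
  · rw [Finset.mul_sum, Finset.sum_congr rfl fun t _ => (hf t).2.2, sum_act hπ]

/-- the surjectivity half -/
theorem surj_iff (hP : PicardFaithful H) (hD : C.Deg 1 D) (hπ : IsCK H X π)
    (hM : MotivicLefschetz C (C.mulCorr D) π) {m : ℕ} (hm1 : 1 ≤ m) (hm : 2 * m ≤ X.dim + 1) :
    (∀ i, 1 ≤ i → i ≤ m → LSurj H D i) ↔ ∀ j : ℕ, ckFil C π j (max 2 (j + 1 - m)) = ⊥ := by
  constructor
  · intro h j
    rw [fil_iff hπ]
    intro t ht x hx hxt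
    exact S_all hP hD hπ hM hm1 h (by omega) (by omega) hx hxt
  · intro h i _ hi
    refine surj_of hD hπ hM hi (by omega) fun j t h2 hj x hx hxt => ?_
    exact (fil_iff hπ j _).1 (h j) t (by omega) x hx hxt

/-- more on the surjectivity half: all of `F^2` vanishes in large codimension -/
theorem surj_top (hP : PicardFaithful H) (hD : C.Deg 1 D) (hπ : IsCK H X π)
    (hM : MotivicLefschetz C (C.mulCorr D) π) {m : ℕ} (hm1 : 1 ≤ m)
    (h : ∀ i, 1 ≤ i → i ≤ m → LSurj H D i) {j : ℕ} (hj : X.dim + 1 ≤ j + m) :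
    ckFil C π j 2 = ⊥ := by
  rw [fil_iff hπ]
  intro t ht x hx hxt
  exact S_all hP hD hπ hM hm1 h (by omega) (by omega) hx hxt

/-- all `i` -/
theorem all_iff (hP : PicardFaithful H) (hD : C.Deg 1 D) (hπ : IsCK H X π)
    (hM : MotivicLefschetz C (C.mulCorr D) π) :
    (∀ i, 2 * i ≤ X.dim + 1 → LInj H D i ∧ LSurj H D i) ↔
      SatisfiesD H π ∧ ∀ j : ℕ, ckFil C π j 2 = ⊥ := by
  have em : 2 * ((X.dim + 1) / 2) ≤ X.dim + 1 := by omega
  constructor
  · intro h
    constructor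
    · exact D_of_low hπ hM (m := (X.dim + 1) / 2) (by omega)
        ((inj_iff hD hπ hM em).1 fun i hi => (h i (by omega)).1)
    · intro j
      rw [fil_iff hπ]
      intro t ht x hx hxt
      by_cases hj : X.dim < j
      · exact gr_top_zero (H := H) (by exact_mod_cast hj) hx
      exact S_all hP hD hπ hM (m := (X.dim + 1) / 2) (by omega) (fun i _ hi => (h i (by omega)).2)
        (by omega) (by omega) hx hxt
  · rintro ⟨h1, h2⟩ i hi
    constructor
    · exact (inj_iff hD hπ hM em).2 (fun j _ => h1 j) i (by omega)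
    · refine surj_of hD hπ hM (m := i) le_rfl hi fun j t h3 _ x hx hxt => ?_
      exact (fil_iff hπ j 2).1 (h2 j) t (by omega) x hx hxt

/-- all `i`, in terms of the component `h^(2j-1)` -/
theorem all_iff' (hP : PicardFaithful H) (hD : C.Deg 1 D) (hπ : IsCK H X π)
    (hM : MotivicLefschetz C (C.mulCorr D) π) :
    (∀ i, 2 * i ≤ X.dim + 1 → LInj H D i ∧ LSurj H D i) ↔
      ∀ j : ℕ, 1 ≤ j → ∀ x : C.A X, C.Deg j x → H.cl x = 0 → C.act (π (2 * j - 1)) x = x := by
  rw [all_iff hP hD hπ hM]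
  constructor
  · rintro ⟨h1, h2⟩ j hj x hx h0
    have key : ∀ t, t ≠ 2 * j - 1 → C.act (π t) x = 0 := by
      intro t ht
      by_cases ht2 : 2 * j ≤ t
      · exact (D_iff hπ j).1 (h1 j) t ht2 _ (act_mem0 C (hπ.deg t) hx)
          (by rw [act_act hπ, if_pos rfl]) (cl_act_zero h0)
      · exact (fil_iff hπ j 2).1 (h2 j) t (by omega) _ (act_mem0 C (hπ.deg t) hx)
          (by rw [act_act hπ, if_pos rfl])
    have h4 : x - C.act (π (2 * j - 1)) x = 0 := by
      refine eq_zero_of_comps hπ fun t => ?_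
      have h5 : C.act (π t) (x - C.act (π (2 * j - 1)) x) =
          C.act (π t) x - C.act (π t) (C.act (π (2 * j - 1)) x) := map_sub (C.actL (π t)) _ _
      rw [h5, act_act hπ]
      by_cases ht : t = 2 * j - 1
      · rw [if_pos ht.symm, ht, sub_self]
      · rw [if_neg (Ne.symm ht), key t ht, sub_zero]
    exact (sub_eq_zero.1 h4).symm
  · intro h
    constructor
    · intro j
      rw [D_iff hπ]
      intro t ht x hx hxt h0
      by_cases hj : j = 0
      · subst hj
        exact eq_zero_of_deg0 (H := H) (by exact_mod_cast hx) h0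
      · rw [← h j (by omega) x hx h0, ← hxt, act_act hπ, if_neg (by omega)]
    · intro j
      rw [fil_iff hπ]
      intro t ht x hx hxt
      have h0 : H.cl x = 0 := by
        rw [← hxt]
        exact cl_comp_zero hπ (by omega) hx
      rw [← h j (by omega) x hx h0, ← hxt, act_act hπ, if_neg (by omega)]

lemma linj_mid {i : ℕ} (hi : 2 * i = X.dim + 1) : LInj H D i := by
  intro x _ _ h
  have e : X.dim + 1 - 2 * i = 0 := by omega
  rwa [e, pow_zero, one_mul] at h

lemma lsurj_mid {i : ℕ} (hi : 2 * i = X.dim + 1) : LSurj H D i := by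
  intro y hy h0
  refine ⟨y, ?_, h0, ?_⟩
  · have e : (X.dim : ℤ) + 1 - i = i := by omega
    rwa [e] at hy
  · have e : X.dim + 1 - 2 * i = 0 := by omega
    rw [e, pow_zero, one_mul]

lemma lsurj_zero : LSurj H D 0 := by
  intro y hy _
  have h : y = 0 := gr_top_zero (H := H) (j := (X.dim : ℤ) + 1 - (0 : ℕ)) (by push_cast; omega) hy
  exact ⟨0, Submodule.zero_mem _, map_zero _, by rw [h, mul_zero]⟩

/-- (D) in dimension at most three -/
lemma D_three (hP : PicardFaithful H) (hπ : IsCK H X π)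
    (hM : MotivicLefschetz C (C.mulCorr D) π) (h3 : X.dim ≤ 3) : SatisfiesD H π := by
  intro j
  rw [D_iff hπ]
  intro t ht x hx hxt h0
  by_cases ht1 : t ≤ X.dim
  · rw [← hxt]
    exact low_D hP hπ (by omega) ht hx h0
  by_cases ht2 : t ≤ 2 * X.dim
  · have e : 2 * X.dim - (2 * X.dim - t) = t := by omega
    obtain ⟨y, hy, hyt, hyw, hy0⟩ := lef_surj hπ hM (t := 2 * X.dim - t) (by omega) hx
      (by rw [e]; exact hxt)
    have hyz : y = 0 := by
      by_cases hneg : j < X.dim - (2 * X.dim - t)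
      · exact deg_neg_zero (by omega) hy
      · have e2 : (j : ℤ) - (X.dim - (2 * X.dim - t) : ℕ) =
            ((j - (X.dim - (2 * X.dim - t)) : ℕ) : ℤ) := by omega
        rw [e2] at hy
        rw [← hyt]
        exact low_D hP hπ (by omega) (by omega) hy (hy0 h0)
    rw [← hyw, hyz, mul_zero]
  · rw [← hxt, hπ.out t (by omega), act_zero_left]

/-- dimension at most three -/
theorem three (hP : PicardFaithful H) (hD : C.Deg 1 D) (hπ : IsCK H X π)
    (hM : MotivicLefschetz C (C.mulCorr D) π) (h3 : X.dim ≤ 3) :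
    (∀ i, 2 * i ≤ X.dim + 1 → LInj H D i) ∧
    ((∀ i, 2 * i ≤ X.dim + 1 → LInj H D i ∧ LSurj H D i) ↔ LSurj H D 1) := by
  have hD3 := D_three hP hπ hM h3
  have hinj : ∀ i, 2 * i ≤ X.dim + 1 → LInj H D i := fun i hi =>
    (inj_iff hD hπ hM (m := i) hi).2 (fun j _ => hD3 j) i le_rfl
  refine ⟨hinj, fun h => ?_, fun h i hi => ⟨hinj i hi, ?_⟩⟩
  · by_cases hn : X.dim = 0
    · intro y hy h0
      have hy' : C.Deg 0 y := by
        have e : (X.dim : ℤ) + 1 - (1 : ℕ) = 0 := by rw [hn]; norm_num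
        rwa [e] at hy
      refine ⟨0, Submodule.zero_mem _, map_zero _, ?_⟩
      rw [mul_zero, eq_zero_of_deg0 (H := H) hy' h0]
    · exact (h 1 (by omega)).2
  · by_cases hi0 : i = 0
    · rw [hi0]; exact lsurj_zero
    by_cases hi1 : i = 1
    · rw [hi1]; exact h
    · exact lsurj_mid (by omega)

end weil

end Pool.Agent.U435.AL
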